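import Pool.Agent.Work.MP_71a505_up.Defs

set_option autoImplicit false

namespace Pool.Agent.Work.MP_71a505_up

namespace F5

/-- The formula for `2 t f`. -/
lemma f_formula {a b c r s t W e h α β γ δ x d : ℝ} (R : RD a b c r s t W e h α β γ δ)
    (X : RX a b c r s t x d) :
    2 * t * (2 * (W + e * W - t) + a * x - e ^ 2 * W)
      = (e ^ 2 * W) ^ 2 + 2 * (e ^ 2 * W) * (W + e * W - t) - 2 * (W + e * W - t) ^ 2
        - 1 - a ^ 2 - x ^ 2 := by
  linear_combination X.axt - R.s2 - R.r2 + 2 * R.t2 - 2 * R.bca + R.acb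

/-- `f` in terms of `fm`. -/
lemma f_eq {a b c r s t W e h α β γ δ x d τ : ℝ} (R : RD a b c r s t W e h α β γ δ)
    (X : RX a b c r s t x d) (hτ : t = W * τ) :
    2 * (W + e * W - t) + a * x - e ^ 2 * W
      = W * fm e τ - (1 + a ^ 2 + x ^ 2) / (2 * t) := by
  have hW := R.hW
  have ht := R.ht
  have hτ0 : 0 < τ := by
    rw [hτ] at ht
    exact (pos_iff_pos_of_mul_pos ht).1 hW
  have h1 := f_formula R X
  have h2 : W * fm e τ = ((e ^ 2 * W) ^ 2 + 2 * (e ^ 2 * W) * (W + e * W - t)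
      - 2 * (W + e * W - t) ^ 2) / (2 * t) := by
    rw [fm, hτ]
    field_simp
  rw [h2, ← sub_div, eq_div_iff (by positivity)]
  linear_combination h1

/-- The exact formula for `F5`. -/
lemma F5_eq {a b c r s t W e h α β γ δ x d q : ℝ} (R : RD a b c r s t W e h α β γ δ)
    (X : RX a b c r s t x d) (hq : q = γ / δ) :
    a * (α * β * γ / δ - α * β) - 16 * α ^ 2 * (2 * (W + e * W - t) + a * x - e ^ 2 * W)
        - 3 * a ^ 2
      = W ^ 2 * Phi5 e h q + 8 * α ^ 2 * (1 + a ^ 2 + x ^ 2) / t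
        - x / t * (α * β) * (q - 1) + 3 * (x / t) * (2 * a + x / t) := by
  have hW := R.hW
  have ht := R.ht
  have hα := R.hα
  have hβ := R.hβ
  have hγ := R.hγ
  have hδ := R.hδ
  have he := R.he
  have hh := R.hh
  have hL3 : 0 < 1 - e - h * e := by linarith [R.hL3]
  have hq0 : 0 < q := by rw [hq]; positivity
  have hqδ : q * δ = γ := by rw [hq]; field_simp
  have htq : t = W * ((1 - e - h * e) * q) := by
    have h1 : t * δ = W * ((1 - e - h * e) * q) * δ := by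
      rw [R.tγ, ← hqδ]; ring
    exact mul_right_cancel₀ hδ.ne' h1
  have hqD : qD e h * W = δ ^ 2 := by rw [R.D2, qD]
  have hqD0 : 0 < qD e h := by
    have : 0 < qD e h * W := by rw [hqD]; positivity
    exact (pos_iff_pos_of_mul_pos this).2 hW
  have hqB : (h * e * qB e h) * W ^ 2 = (α * β) ^ 2 := by
    rw [mul_pow, R.A2, R.B2, qB]; ring
  -- `ρ = r s / t`
  obtain ⟨ρ, hρ⟩ : ∃ ρ, ρ = r * s / t := ⟨_, rfl⟩
  have hax : a = ρ - x / t := by
    rw [hρ, ← sub_div, eq_div_iff ht.ne', X.xe]; ring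
  obtain ⟨κ, hκ⟩ : ∃ κ, κ = (h + 3) * (h + 1 - e) * e ^ 2 / (qD e h * ((1 - e - h * e) * q)) :=
    ⟨_, rfl⟩
  have hρκ : ρ = α * β * κ := by
    rw [hρ, hκ, div_eq_iff ht.ne', htq]
    have h1 : r * s * δ ^ 2 = α * β * ((h + 3) * (h + 1 - e) * e ^ 2) * W ^ 2 := by
      calc r * s * δ ^ 2 = (r * δ) * (s * δ) := by ring
        _ = _ := by rw [R.rα, R.sβ]; ring
    have h2 : r * s * qD e h = α * β * ((h + 3) * (h + 1 - e) * e ^ 2) * W := by
      have h3 : r * s * qD e h * W = α * β * ((h + 3) * (h + 1 - e) * e ^ 2) * W * W := by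
        calc r * s * qD e h * W = r * s * (qD e h * W) := by ring
          _ = r * s * δ ^ 2 := by rw [hqD]
          _ = _ := by rw [h1]; ring
      exact mul_right_cancel₀ hW.ne' h3
    have h4 : α * β * ((h + 3) * (h + 1 - e) * e ^ 2 / (qD e h * ((1 - e - h * e) * q))) *
        (W * ((1 - e - h * e) * q)) = α * β * ((h + 3) * (h + 1 - e) * e ^ 2) * W / qD e h := by
      field_simp
    rw [h4, eq_div_iff hqD0.ne', h2]
  have hΦ : W ^ 2 * Phi5 e h q = α * β * ρ * (q - 1)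
      - 16 * α ^ 2 * (W * fm e ((1 - e - h * e) * q)) - 3 * ρ ^ 2 := by
    have h1 : Phi5 e h q = h * e * qB e h * κ * (q - 1)
        - 16 * (h * e) * fm e ((1 - e - h * e) * q) - 3 * (h * e * qB e h * κ ^ 2) := by
      rw [Phi5, hκ, div_pow]; ring
    rw [h1, hρκ, R.A2]
    linear_combination (κ * (q - 1) - 3 * κ ^ 2) * hqB
  have hf := f_eq R X htq
  have hK : α * β * γ / δ = α * β * q := by rw [hq]; ring
  rw [hf, hK, hΦ]
  have h8 : 8 * α ^ 2 * (1 + a ^ 2 + x ^ 2) / t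
      = 16 * α ^ 2 * ((1 + a ^ 2 + x ^ 2) / (2 * t)) := by
    field_simp; ring
  rw [h8]
  obtain ⟨ξ, hξ⟩ : ∃ ξ, ξ = x / t := ⟨_, rfl⟩
  rw [← hξ] at hax ⊢
  have hρa : ρ = a + ξ := by rw [hax]; ring
  rw [hρa]
  ring

end F5

theorem F5_bound {a b c r s t W e h α β γ δ x d : ℝ}
    (hz1 : e ^ 3 * b < a ∧ 3 * a ≤ 8 * (e ^ 3 * b) ∧ W ^ 2 ≤ b * c ∧ b * c ≤ 4 * W ^ 2 ∧
      h * c ≤ b ∧ 50 ≤ b ∧ W < t ∧ 47 * c ≤ 48 * (c - a))
    (hz2 : e ≤ 1 / 100 → 100 * b ≤ c →
      49 * a ≤ 100 * (e ^ 3 * b) ∧ 100 * (e ^ 3 * b) ≤ 51 * a ∧ 95 * (b * c) ≤ 100 * W ^ 2 ∧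
      42 * b ≤ 100 * (h * c) ∧ 100 * (h * c) ≤ 48 * b)
    (R : RD a b c r s t W e h α β γ δ) (I : II a b c r s t W e α β γ δ)
    (X : RX a b c r s t x d) (ha1 : a = 1) (hb9 : 1000000000 ≤ b) (hf : b ^ 5 < 2 * (a ^ 8 * c ^ 3))
    (hΦ : ∀ q : ℝ, 0 < q → q ^ 2 * qD e h = qC e h → e ≤ 1 / 1000 → h ≤ 1 / 1000 →
      6 * (e ^ 7 * h) + 20 * (e ^ 5 * h ^ 2) ≤ Phi5 e h q ∧
        Phi5 e h q ≤ 8 * (e ^ 7 * h) + 30 * (e ^ 5 * h ^ 2)) : False := by
  obtain ⟨z1, -, z3, z4, z5, -, z7, -⟩ := hz1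
  have hW := R.hW
  have ht := R.ht
  have hα := R.hα
  have hβ := R.hβ
  have hγ := R.hγ
  have hδ := R.hδ
  have he := R.he
  have hh := R.hh
  have hb0 : 0 < b := by linarith
  have hc0 : 0 < c := by
    have := R.hc
    rw [ha1] at this
    linarith
  have hx0 := X.x0
  -- smallness of `e`
  have he3 : e ≤ 1 / 1000 := by
    by_contra hcon
    push Not at hcon
    have h1 : (1 / 1000 : ℝ) ^ 3 < e ^ 3 := pow_lt_pow_left₀ hcon (by norm_num) (by norm_num)
    have h2 : (1 / 1000 : ℝ) ^ 3 * 1000000000 ≤ e ^ 3 * b :=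
      mul_le_mul h1.le hb9 (by norm_num) (by positivity)
    rw [ha1] at z1
    norm_num at h2
    linarith
  -- `b ^ 5 < 2 c ^ 3`
  have hf' : b ^ 5 < 2 * c ^ 3 := by rw [ha1] at hf; linarith
  have hbc : 100000 * b ≤ c := by
    by_contra hcon
    push Not at hcon
    have h1 : c ^ 3 < (100000 * b) ^ 3 := pow_lt_pow_left₀ hcon hc0.le (by norm_num)
    have h2 : b ^ 5 < 2 * (100000 * b) ^ 3 := by linarith
    have h3 : b ^ 2 < 2 * 100000 ^ 3 := by
      have h4 : b ^ 3 * b ^ 2 < b ^ 3 * (2 * 100000 ^ 3) := by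
        calc b ^ 3 * b ^ 2 = b ^ 5 := by ring
          _ < 2 * (100000 * b) ^ 3 := h2
          _ = _ := by ring
      exact lt_of_mul_lt_mul_left h4 (by positivity)
    have h5 : (1000000000 : ℝ) ^ 2 ≤ b ^ 2 := pow_le_pow_left₀ (by norm_num) hb9 2
    norm_num at h3 h5
    linarith
  have hh3 : h ≤ 1 / 1000 := by
    by_contra hcon
    push Not at hcon
    have h1 : 1 / 1000 * c < h * c := mul_lt_mul_of_pos_right hcon hc0
    linarith
  obtain ⟨y1, y2, y3, y4, y5⟩ := hz2 (by linarith) (by linarith)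
  obtain ⟨q, hq⟩ : ∃ q, q = γ / δ := ⟨_, rfl⟩
  have hq0 : 0 < q := by rw [hq]; positivity
  have hqqD : q ^ 2 * qD e h = qC e h := by
    have h1 : qD e h * W = δ ^ 2 := by rw [R.D2, qD]
    have h2 : qC e h * W = γ ^ 2 := by rw [R.C2, qC]
    have h3 : q ^ 2 * qD e h * W = qC e h * W := by
      rw [mul_assoc, h1, h2, hq]; field_simp
    exact mul_right_cancel₀ hW.ne' h3
  obtain ⟨p1, p2⟩ := hΦ q hq0 hqqD he3 hh3
  -- bounds for `q`
  have hhe : h * e ≤ 1 / 1000 * e := mul_le_mul_of_nonneg_right hh3 he.le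
  have hee : e * e ≤ 1 / 1000 * e := mul_le_mul_of_nonneg_right he3 he.le
  have hqD0 : 1 ≤ qD e h := by
    rw [qD]
    linarith [pow_pos he 2]
  have hq1 : 1 ≤ q := by
    by_contra hcon
    push Not at hcon
    have h1 : q ^ 2 < 1 ^ 2 := pow_lt_pow_left₀ hcon hq0.le (by norm_num)
    rw [one_pow] at h1
    have h2 : q ^ 2 * qD e h < 1 * qD e h := mul_lt_mul_of_pos_right h1 (by linarith)
    rw [hqqD, qC, qD] at h2
    have h3 : e ^ 2 = e * e := by ring
    rw [h3] at h2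
    linarith [mul_pos hh he]
  have hq5 : q ≤ 1 + 5 * e := by
    by_contra hcon
    push Not at hcon
    have h1 : (1 + 5 * e) ^ 2 < q ^ 2 := pow_lt_pow_left₀ hcon (by linarith) (by norm_num)
    have h2 : (1 + 5 * e) ^ 2 * qD e h < q ^ 2 * qD e h :=
      mul_lt_mul_of_pos_right h1 (by linarith)
    rw [hqqD, qC] at h2
    have hexp : (1 + 10 * e) * (2 - 4 * e - 3 * (h * e))
        = 2 + 16 * e - 40 * (e * e) - 3 * (h * e) - 30 * (e * (h * e)) := by ring
    have hk : e * (h * e) ≤ 1 / 1000 * (h * e) :=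
      mul_le_mul_of_nonneg_right he3 (mul_pos hh he).le
    have h3 : (1 + 10 * e) * (2 - 4 * e - 3 * (h * e)) ≤ (1 + 5 * e) ^ 2 * qD e h := by
      have k1 : 1 + 10 * e ≤ (1 + 5 * e) ^ 2 := by
        have : (1 + 5 * e) ^ 2 = 1 + 10 * e + 25 * (e * e) := by ring
        rw [this]
        linarith [mul_pos he he]
      have k2 : 2 - 4 * e - 3 * (h * e) ≤ qD e h := by
        rw [qD]
        linarith [mul_pos he he, pow_pos he 2]
      exact mul_le_mul k1 k2 (by linarith) (by positivity)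
    rw [hexp] at h3
    linarith
  -- the quantity
  have hF := F5.F5_eq R X hq
  have hint : IsI (a * (α * β * γ / δ - α * β)
      - 16 * α ^ 2 * (2 * (W + e * W - t) + a * x - e ^ 2 * W) - 3 * a ^ 2) := by
    have i2 : IsI (2 : ℝ) := ⟨2, by norm_num⟩
    have i3 : IsI (3 : ℝ) := ⟨3, by norm_num⟩
    have i16 : IsI (16 : ℝ) := ⟨16, by norm_num⟩
    exact ((I.ia.mul (I.iK.sub I.iAB)).sub ((i16.mul I.iA).mul
      (((i2.mul ((I.iW.add I.iU).sub I.it)).add (I.ia.mul X.ix)).sub I.iM))).sub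
      (i3.mul (I.ia.pow 2))
  rw [hF] at hint
  -- `ξ = x / t`
  obtain ⟨ξ, hξ⟩ : ∃ ξ, ξ = x / t := ⟨_, rfl⟩
  have hξ0 : 0 < ξ := by rw [hξ]; positivity
  have hd : 4 * b * d < c := by
    have := X.dc
    rw [ha1] at this
    linarith
  have hd1 := X.d1
  have hx2 : x ^ 2 = d + 1 := by
    have := X.x2
    rw [ha1] at this
    linarith
  have hs2 : s ^ 2 = c + 1 := by
    have := R.s2
    rw [ha1] at this
    linarith
  have hr2 : r ^ 2 = b + 1 := by
    have := R.r2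
    rw [ha1] at this
    linarith
  have ht2 := R.t2
  have hξ1 : ξ ≤ 1 / b := by
    have h1 : (ξ * b) ^ 2 ≤ 1 ^ 2 := by
      have h2 : (ξ * b) ^ 2 = x ^ 2 * b ^ 2 / t ^ 2 := by rw [hξ]; field_simp
      rw [h2, div_le_iff₀ (by positivity), hx2, ← ht2]
      have k1 : b * (100000 * b) ≤ b * c := mul_le_mul_of_nonneg_left hbc hb0.le
      have k2 : b * (4 * b * d) ≤ b * c := mul_le_mul_of_nonneg_left hd.le hb0.le
      have k3 : 0 < b * c := mul_pos hb0 hc0
      have k4 : (d + 1) * b ^ 2 = b * (4 * b * d) / 4 + b * (100000 * b) / 100000 := by ring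
      rw [k4]
      linarith
    have h3 : ξ * b ≤ 1 := by
      exact (pow_le_pow_iff_left₀ (by positivity) (by norm_num) (by norm_num)).1 h1
    rw [le_div_iff₀ hb0]
    exact h3
  have hξ9 : ξ ≤ 1 / 1000000000 :=
    hξ1.trans (one_div_le_one_div_of_le (by norm_num) hb9)
  -- `αβ x ≤ e W`
  have hαβx : α * β * x ≤ e * W := by
    have h1 : 2 * r * x * s ≤ 1.01 * s * s := by
      have h2 := X.sy
      rw [ha1] at h2
      have k1 : 2 * r * x * s = s ^ 2 + (r ^ 2 + x ^ 2 - 1 - 1 ^ 2) := by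
        rw [← h2]; ring
      have k2 : 1.01 * s * s = 1.01 * s ^ 2 := by ring
      have k3 : 4 * 1000 * d ≤ 4 * b * d :=
        mul_le_mul_of_nonneg_right (by linarith) (by linarith)
      rw [k1, k2, hs2, hr2, hx2]
      linarith
    have h3 : 2 * r * x ≤ 1.01 * s := le_of_mul_le_mul_right h1 R.hs
    have hL1 : 0 < (h + 3) * e * W := by positivity
    -- αβ s L1 = B L2 r
    have h4 : α * β * s * ((h + 3) * e * W) = β ^ 2 * ((h + 1 - e) * e * W) * r := by
      have h5 : (α * β * s * ((h + 3) * e * W)) * δ = (β ^ 2 * ((h + 1 - e) * e * W) * r) * δ := by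
        calc (α * β * s * ((h + 3) * e * W)) * δ = β * (s * δ) * (α * ((h + 3) * e * W)) := by ring
          _ = β * (β * ((h + 1 - e) * e * W)) * (r * δ) := by rw [R.sβ, R.rα]
          _ = _ := by ring
      exact mul_right_cancel₀ hδ.ne' h5
    have h6 : 2 * (α * β * x) * ((h + 3) * e * W) * r
        ≤ 1.01 * (β ^ 2 * ((h + 1 - e) * e * W)) * r := by
      calc 2 * (α * β * x) * ((h + 3) * e * W) * r
          = (α * β * ((h + 3) * e * W)) * (2 * r * x) := by ring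
        _ ≤ (α * β * ((h + 3) * e * W)) * (1.01 * s) :=
            mul_le_mul_of_nonneg_left h3 (by positivity)
        _ = 1.01 * (α * β * s * ((h + 3) * e * W)) := by ring
        _ = _ := by rw [h4]; ring
    have h7 := le_of_mul_le_mul_right h6 R.hr
    have h8 : 2 * (α * β * x) * (h + 3) * (e * W) ≤ 1.01 * β ^ 2 * (h + 1 - e) * (e * W) := by
      linarith
    have h9 := le_of_mul_le_mul_right h8 (by positivity : 0 < e * W)
    have h10 : β ^ 2 ≤ 4.1 * (e * W) := by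
      rw [R.B2]
      have : h * e + 2 * e ^ 2 + 4 * e ≤ 4.1 * e := by
        have k1 : e ^ 2 = e * e := by ring
        rw [k1]
        linarith
      calc (h * e + 2 * e ^ 2 + 4 * e) * W ≤ (4.1 * e) * W :=
            mul_le_mul_of_nonneg_right this hW.le
        _ = _ := by ring
    have h11 : 1.01 * β ^ 2 * (h + 1 - e) ≤ 1.01 * (4.1 * (e * W)) * 1.001 := by
      apply mul_le_mul
      · linarith
      · linarith
      · linarith
      · positivity
    have h12 : 2 * (α * β * x) * 3 ≤ 2 * (α * β * x) * (h + 3) :=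
      mul_le_mul_of_nonneg_left (by linarith) (by positivity)
    have h13 : 0 < e * W := by positivity
    linarith
  -- the third term
  have h3rd : ξ * (α * β) * (q - 1) ≤ 5 * e ^ 2 := by
    have h1 : ξ * (α * β) ≤ e := by
      rw [hξ, div_mul_eq_mul_div, div_le_iff₀ ht]
      calc x * (α * β) = α * β * x := by ring
        _ ≤ e * W := hαβx
        _ ≤ e * t := mul_le_mul_of_nonneg_left z7.le he.le
    calc ξ * (α * β) * (q - 1) ≤ e * (5 * e) := by
          apply mul_le_mul h1 (by linarith) (by linarith) he.le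
      _ = _ := by ring
  have h3rd0 : 0 ≤ ξ * (α * β) * (q - 1) :=
    mul_nonneg (by positivity) (by linarith)
  -- abbreviations
  obtain ⟨P, hP⟩ : ∃ P, P = e ^ 3 * b := ⟨_, rfl⟩
  rw [← hP, ha1] at y1 y2
  have hP1 : 0.49 ≤ P := by linarith
  have hP2 : P ≤ 0.51 := by linarith
  -- lower bound
  have hlow : 0.5 * e ≤ W ^ 2 * Phi5 e h q := by
    have h1 : W ^ 2 * (6 * (e ^ 7 * h)) ≤ W ^ 2 * Phi5 e h q := by
      apply mul_le_mul_of_nonneg_left _ (by positivity)
      have : 0 < 20 * (e ^ 5 * h ^ 2) := by positivity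
      linarith
    have h2 : 0.95 * (b * c) * (6 * (e ^ 7 * h)) ≤ W ^ 2 * (6 * (e ^ 7 * h)) := by
      apply mul_le_mul_of_nonneg_right _ (by positivity)
      linarith
    have h3 : 0.95 * (b * c) * (6 * (e ^ 7 * h)) = 5.7 * (e * (e ^ 6 * b * (h * c))) := by ring
    have h4 : e ^ 6 * b * (0.42 * b) ≤ e ^ 6 * b * (h * c) :=
      mul_le_mul_of_nonneg_left (by linarith) (by positivity)
    have h5 : e ^ 6 * b * (0.42 * b) = 0.42 * P ^ 2 := by rw [hP]; ring
    have h6 : 0.49 ^ 2 ≤ P ^ 2 := pow_le_pow_left₀ (by norm_num) hP1 2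
    norm_num at h6
    have h7 : 0.1 ≤ e ^ 6 * b * (h * c) := by linarith
    have h8 : e * 0.1 ≤ e * (e ^ 6 * b * (h * c)) := mul_le_mul_of_nonneg_left h7 he.le
    linarith
  -- upper bound
  have hup : W ^ 2 * Phi5 e h q ≤ 0.1 := by
    have h1 : W ^ 2 * Phi5 e h q ≤ W ^ 2 * (8 * (e ^ 7 * h) + 30 * (e ^ 5 * h ^ 2)) :=
      mul_le_mul_of_nonneg_left p2 (by positivity)
    have h2 : W ^ 2 * (8 * (e ^ 7 * h) + 30 * (e ^ 5 * h ^ 2))
        ≤ (b * c) * (8 * (e ^ 7 * h) + 30 * (e ^ 5 * h ^ 2)) :=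
      mul_le_mul_of_nonneg_right z3 (by positivity)
    have h3 : (b * c) * (8 * (e ^ 7 * h) + 30 * (e ^ 5 * h ^ 2))
        = 8 * (e * (e ^ 6 * b * (h * c))) + 30 * (e ^ 5 * b * (h * (h * c))) := by ring
    have h4 : e ^ 6 * b * (h * c) ≤ e ^ 6 * b * (0.48 * b) :=
      mul_le_mul_of_nonneg_left (by linarith) (by positivity)
    have h5 : e ^ 6 * b * (0.48 * b) = 0.48 * P ^ 2 := by rw [hP]; ring
    have h6 : P ^ 2 ≤ 0.51 ^ 2 := pow_le_pow_left₀ (by linarith) hP2 2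
    norm_num at h6
    have h7 : e * (e ^ 6 * b * (h * c)) ≤ e * 1 := mul_le_mul_of_nonneg_left (by linarith) he.le
    -- `v = e² b² / c`
    obtain ⟨v, hv⟩ : ∃ v, v = e ^ 2 * b ^ 2 / c := ⟨_, rfl⟩
    have hv0 : 0 < v := by rw [hv]; positivity
    have hv3 : v ≤ 1 / 1000 := by
      have h8 : v ^ 3 * c ^ 3 = P ^ 2 * b ^ 4 := by rw [hv, hP]; field_simp
      by_contra hcon
      push Not at hcon
      have h9 : (1 / 1000 : ℝ) ^ 3 < v ^ 3 := pow_lt_pow_left₀ hcon (by norm_num) (by norm_num)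
      have h10 : (1 / 1000 : ℝ) ^ 3 * c ^ 3 ≤ P ^ 2 * b ^ 4 := by
        rw [← h8]; exact mul_le_mul_of_nonneg_right h9.le (by positivity)
      have h11 : P ^ 2 * b ^ 4 ≤ 2601 / 10000 * b ^ 4 := mul_le_mul_of_nonneg_right h6 (by positivity)
      have h12 : 1000000000 * b ^ 4 ≤ b ^ 5 := by
        calc 1000000000 * b ^ 4 ≤ b * b ^ 4 := mul_le_mul_of_nonneg_right hb9 (by positivity)
          _ = _ := by ring
      have h13 : 0 < b ^ 4 := by positivity
      norm_num at h10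
      linarith
    have h14 : e ^ 5 * b * (h * (h * c)) ≤ v := by
      have h15 : h * (h * c) ≤ b * b / c := by
        have h16 : h ≤ b / c := by rw [le_div_iff₀ hc0]; exact z5
        calc h * (h * c) ≤ (b / c) * b := mul_le_mul h16 z5 (by positivity) (by positivity)
          _ = _ := by ring
      calc e ^ 5 * b * (h * (h * c)) ≤ e ^ 5 * b * (b * b / c) :=
            mul_le_mul_of_nonneg_left h15 (by positivity)
        _ = P * v := by rw [hP, hv]; field_simp
        _ ≤ 1 * v := mul_le_mul_of_nonneg_right (by linarith) hv0.le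
        _ = v := one_mul v
    linarith
  -- the second term
  have h2nd : 8 * α ^ 2 * (1 + a ^ 2 + x ^ 2) / t ≤ 0.1 := by
    rw [ha1, hx2, R.A2, div_le_iff₀ ht]
    have h1 : h * d ≤ 0.12 := by
      have h2 : h * (4 * b * d) ≤ h * c := mul_le_mul_of_nonneg_left hd.le hh.le
      have h3 : b * (4 * (h * d)) ≤ b * 0.48 := by linarith
      have h4 := le_of_mul_le_mul_left h3 hb0
      linarith
    have h5 : h * (1 + 1 ^ 2 + (d + 1)) ≤ 1 := by
      have k1 : h * (1 + 1 ^ 2 + (d + 1)) = h * d + 3 * h := by ring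
      rw [k1]
      linarith
    calc 8 * (h * e * W) * (1 + 1 ^ 2 + (d + 1)) = 8 * e * (h * (1 + 1 ^ 2 + (d + 1))) * W := by
          ring
      _ ≤ 8 * e * 1 * W := by
          apply mul_le_mul_of_nonneg_right _ hW.le
          exact mul_le_mul_of_nonneg_left h5 (by positivity)
      _ ≤ 0.1 * t := by
          have h6 : 8 * e * 1 ≤ 0.1 := by linarith
          exact mul_le_mul h6 z7.le hW.le (by norm_num)
  have h2nd0 : 0 ≤ 8 * α ^ 2 * (1 + a ^ 2 + x ^ 2) / t := by positivity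
  rw [← hξ] at hint
  have h4th : 3 * ξ * (2 * a + ξ) ≤ 0.1 := by
    rw [ha1]
    calc 3 * ξ * (2 * 1 + ξ) ≤ (3 * (1 / 1000000000)) * 3 :=
          mul_le_mul (by linarith) (by linarith) (by positivity) (by norm_num)
      _ ≤ 0.1 := by norm_num
  have h4th0 : 0 ≤ 3 * ξ * (2 * a + ξ) := by
    rw [ha1]; positivity
  have hpos : 0 < W ^ 2 * Phi5 e h q + 8 * α ^ 2 * (1 + a ^ 2 + x ^ 2) / t
      - ξ * (α * β) * (q - 1) + 3 * ξ * (2 * a + ξ) := by
    have k1 : e ^ 2 = e * e := by ring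
    rw [k1] at h3rd
    linarith
  have := hint.one_le hpos
  linarith

end Pool.Agent.Work.MP_71a505_up
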